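import Pool.Agent.H452R3.Conc

set_option autoImplicit false

/-!
Bigraded pieces and Euler characteristics.
-/

namespace Pool.Agent.H452R3

open MvPolynomial
open scoped Classical

variable {K : Type*} [Field K] {ℓ : ℕ}

/-- the piece of exterior degree `p` and polynomial degree `j` -/
def GP (K : Type*) [Field K] (ℓ p j : ℕ) : Submodule K (Amb K ℓ) where
  carrier := {c | (∀ I : Finset (Fin ℓ), I.card ≠ p → c I = 0) ∧ ∀ I, (c I).IsHomogeneous j}
  add_mem' := by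
    rintro c d ⟨h1, h2⟩ ⟨h3, h4⟩
    refine ⟨fun I hI => ?_, fun I => (h2 I).add (h4 I)⟩
    simp [h1 I hI, h3 I hI]
  zero_mem' := ⟨fun _ _ => rfl, fun _ => isHomogeneous_zero _ _ _⟩
  smul_mem' := by
    rintro t c ⟨h1, h2⟩
    refine ⟨fun I hI => ?_, fun I => ?_⟩
    · simp [h1 I hI]
    · exact (homogeneousSubmodule (Fin ℓ) K j).smul_mem t (h2 I)

theorem mem_GP {p j : ℕ} {c : Amb K ℓ} :
    c ∈ GP K ℓ p j ↔ (∀ I : Finset (Fin ℓ), I.card ≠ p → c I = 0) ∧
      ∀ I, (c I).IsHomogeneous j := Iff.rfl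

instance finite_GP (p j : ℕ) : FiniteDimensional K (GP K ℓ p j) := by
  let φ : GP K ℓ p j →ₗ[K] (Finset (Fin ℓ) → restrictTotalDegree (Fin ℓ) K j) :=
    LinearMap.pi fun I =>
      LinearMap.codRestrict _ ((LinearMap.proj I).domRestrict (GP K ℓ p j)) (by
        intro c
        rw [mem_restrictTotalDegree]
        exact (c.2.2 I).totalDegree_le)
  apply Module.Finite.of_injective φ
  intro c d h
  apply Subtype.ext
  funext I
  have := congrArg (fun z : Finset (Fin ℓ) → restrictTotalDegree (Fin ℓ) K j =>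
    ((z I : restrictTotalDegree (Fin ℓ) K j) : MvPolynomial (Fin ℓ) K)) h
  exact this

instance finite_inf_GP (N : Submodule K (Amb K ℓ)) (p j : ℕ) :
    FiniteDimensional K (N ⊓ GP K ℓ p j : Submodule K (Amb K ℓ)) :=
  Submodule.finiteDimensional_of_le inf_le_right

/-- dimension of the piece -/
noncomputable def pc (N : Submodule K (Amb K ℓ)) (p j : ℕ) : ℕ :=
  Module.finrank K (N ⊓ GP K ℓ p j : Submodule K (Amb K ℓ))

/-- Euler characteristic in total degree `m` -/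
noncomputable def EF (N : Submodule K (Amb K ℓ)) (m : ℕ) : ℤ :=
  ∑ x ∈ Finset.HasAntidiagonal.antidiagonal m, (-1 : ℤ) ^ x.1 * (pc N x.1 x.2 : ℤ)

theorem finrank_map_ker {E F : Type*} [AddCommGroup E] [Module K E] [AddCommGroup F] [Module K F]
    (P : Submodule K E) [FiniteDimensional K P] (φ : E →ₗ[K] F) :
    Module.finrank K P = Module.finrank K (P.map φ) +
      Module.finrank K (P ⊓ LinearMap.ker φ : Submodule K E) := by
  have h := LinearMap.finrank_range_add_finrank_ker (φ.domRestrict P)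
  rw [← h]
  congr 1
  · have : LinearMap.range (φ.domRestrict P) = P.map φ := by
      ext x
      simp [LinearMap.mem_range, Submodule.mem_map]
    rw [this]
  · have h2 : LinearMap.ker (φ.domRestrict P) = (LinearMap.ker φ).comap P.subtype := by
      ext x; simp
    rw [h2, ← Submodule.map_comap_subtype, Submodule.finrank_map_subtype_eq]

/-! ### operators on pieces -/

theorem ctr_GP {p j : ℕ} (a : Fin ℓ → K) {c : Amb K ℓ} (hc : c ∈ GP K ℓ (p + 1) j) :
    ctr a c ∈ GP K ℓ p j := by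
  refine ⟨fun J hJ => ?_, fun J => ?_⟩
  · rw [ctr_apply, Finset.sum_apply]
    apply Finset.sum_eq_zero
    intro i _
    simp only [Pi.smul_apply, ctr1_apply]
    split_ifs with hi
    · simp
    · rw [hc.1 (insert i J) (by rw [Finset.card_insert_of_notMem hi]; omega)]
      simp
  · rw [ctr_apply, Finset.sum_apply]
    apply IsHomogeneous.sum
    intro i _
    simp only [Pi.smul_apply, ctr1_apply]
    split_ifs with hi
    · simp [isHomogeneous_zero]
    · exact (homogeneousSubmodule (Fin ℓ) K j).smul_mem _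
        ((homogeneousSubmodule (Fin ℓ) K j).smul_mem _ (hc.2 _))

theorem ctr_GP_zero {j : ℕ} (a : Fin ℓ → K) {c : Amb K ℓ} (hc : c ∈ GP K ℓ 0 j) :
    ctr a c = 0 := by
  funext J
  rw [ctr_apply, Finset.sum_apply]
  apply Finset.sum_eq_zero
  intro i _
  simp only [Pi.smul_apply, ctr1_apply]
  split_ifs with hi
  · simp
  · rw [hc.1 (insert i J) (by rw [Finset.card_insert_of_notMem hi]; omega)]
    simp

theorem wdg_GP {p j : ℕ} (a : Fin ℓ → K) {c : Amb K ℓ} (hc : c ∈ GP K ℓ p j) :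
    wdg a c ∈ GP K ℓ (p + 1) j := by
  refine ⟨fun J hJ => ?_, fun J => ?_⟩
  · rw [wdg_apply, Finset.sum_apply]
    apply Finset.sum_eq_zero
    intro i _
    simp only [Pi.smul_apply, wdg1_apply]
    split_ifs with hi
    · rw [hc.1 (J.erase i) (by
        rw [Finset.card_erase_of_mem hi]
        have := Finset.card_pos.2 ⟨i, hi⟩
        omega)]
      simp
    · simp
  · rw [wdg_apply, Finset.sum_apply]
    apply IsHomogeneous.sum
    intro i _
    simp only [Pi.smul_apply, wdg1_apply]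
    split_ifs with hi
    · exact (homogeneousSubmodule (Fin ℓ) K j).smul_mem _
        ((homogeneousSubmodule (Fin ℓ) K j).smul_mem _ (hc.2 _))
    · simp [isHomogeneous_zero]

theorem lin_smul_GP {p j : ℕ} (a : Fin ℓ → K) {c : Amb K ℓ} (hc : c ∈ GP K ℓ p j) :
    lin a • c ∈ GP K ℓ p (j + 1) := by
  refine ⟨fun J hJ => ?_, fun J => ?_⟩
  · simp [hc.1 J hJ]
  · have := (lin_isHomogeneous a).mul (hc.2 J)
    rw [add_comm] at this
    exact this

theorem ddA_GP {f : Module.Dual K (Fin ℓ → K)} {y : Fin ℓ → K} (hy : y ≠ 0) {p j : ℕ}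
    {c : Amb K ℓ} (hc : c ∈ GP K ℓ p (j + 1)) : ddA f y c ∈ GP K ℓ p j := by
  refine ⟨fun J hJ => ?_, fun J => dd_isHomogeneous hy (hc.2 J)⟩
  simp [ddA, hc.1 J hJ, dd_zero hy]

theorem ddA_GP_zero {f : Module.Dual K (Fin ℓ → K)} {y : Fin ℓ → K} (hy : y ≠ 0) {p : ℕ}
    {c : Amb K ℓ} (hc : c ∈ GP K ℓ p 0) : ddA f y c = 0 := by
  funext I
  exact dd_isHomogeneous_zero hy (hc.2 I)

/-- the vector associated with a functional -/
def vec (f : Module.Dual K (Fin ℓ → K)) : Fin ℓ → K := fun i => f (Pi.single i 1)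

theorem sum_vec (f : Module.Dual K (Fin ℓ → K)) (a : Fin ℓ → K) :
    ∑ i, a i * vec f i = f a := by
  have h : a = ∑ i, a i • Pi.single i (1 : K) := by
    funext k
    simp [Finset.sum_apply, Pi.single_apply]
  conv_rhs => rw [h]
  rw [map_sum]
  simp [vec]

/-- `ctr` over `K` -/
noncomputable def ctrK (a : Fin ℓ → K) : Amb K ℓ →ₗ[K] Amb K ℓ where
  toFun c := ctr a c
  map_add' c d := map_add _ c d
  map_smul' t c := ctr_smulK a t c

noncomputable def ddK (f : Module.Dual K (Fin ℓ → K)) {y : Fin ℓ → K} (hy : y ≠ 0) :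
    Amb K ℓ →ₗ[K] Amb K ℓ where
  toFun c := ddA f y c
  map_add' c d := ddA_add hy c d
  map_smul' t c := by funext I; exact dd_smul hy _ _

/-- stability under the four operators attached to a dual pair -/
structure Stab (N : Submodule K (Amb K ℓ)) (f : Module.Dual K (Fin ℓ → K)) (y : Fin ℓ → K) :
    Prop where
  hlin : ∀ c ∈ N, lin y • c ∈ N
  hdd : ∀ c ∈ N, ddA f y c ∈ N
  hctr : ∀ c ∈ N, ctr y c ∈ N
  hwdg : ∀ c ∈ N, wdg (vec f) c ∈ N

/-- the reduced subspace -/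
noncomputable def Rd (N : Submodule K (Amb K ℓ)) (f : Module.Dual K (Fin ℓ → K))
    {y : Fin ℓ → K} (hy : y ≠ 0) : Submodule K (Amb K ℓ) :=
  N ⊓ LinearMap.ker (ctrK y) ⊓ LinearMap.ker (ddK f hy)

theorem ctr_wdg_vec (f : Module.Dual K (Fin ℓ → K)) (a : Fin ℓ → K) (c : Amb K ℓ) :
    ctr a (wdg (vec f) c) + wdg (vec f) (ctr a c) = f a • c := by
  rw [ctr_wdg, sum_vec]

section reduce

variable {N : Submodule K (Amb K ℓ)} {f : Module.Dual K (Fin ℓ → K)} {y : Fin ℓ → K}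

theorem red_a (hN : Stab N f y) (hfy : f y = 1) (p j : ℕ) :
    pc N (p + 1) j = pc (N ⊓ LinearMap.ker (ctrK y)) (p + 1) j +
      pc (N ⊓ LinearMap.ker (ctrK y)) p j := by
  unfold pc
  rw [finrank_map_ker (N ⊓ GP K ℓ (p + 1) j) (ctrK y), add_comm]
  have e1 : N ⊓ GP K ℓ (p + 1) j ⊓ LinearMap.ker (ctrK y) =
      N ⊓ LinearMap.ker (ctrK y) ⊓ GP K ℓ (p + 1) j := inf_right_comm _ _ _
  have e2 : (N ⊓ GP K ℓ (p + 1) j).map (ctrK y) =
      N ⊓ LinearMap.ker (ctrK y) ⊓ GP K ℓ p j := by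
    ext c
    simp only [Submodule.mem_map, Submodule.mem_inf, LinearMap.mem_ker]
    constructor
    · rintro ⟨d, ⟨hd1, hd2⟩, rfl⟩
      refine ⟨⟨hN.hctr d hd1, ?_⟩, ctr_GP y hd2⟩
      show ctr y (ctr y d) = 0
      exact ctr_ctr_self y d
    · rintro ⟨⟨hc1, hc2⟩, hc3⟩
      refine ⟨wdg (vec f) c, ⟨hN.hwdg c hc1, wdg_GP _ hc3⟩, ?_⟩
      have h := ctr_wdg_vec f y c
      have hc2' : ctr y c = 0 := hc2
      rw [hc2', map_zero, add_zero, hfy, one_smul] at h
      exact h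
  rw [e1, e2]

theorem red_b (j : ℕ) : pc N 0 j = pc (N ⊓ LinearMap.ker (ctrK y)) 0 j := by
  unfold pc
  have e1 : N ⊓ GP K ℓ 0 j = N ⊓ LinearMap.ker (ctrK y) ⊓ GP K ℓ 0 j := by
    ext c
    simp only [Submodule.mem_inf, LinearMap.mem_ker]
    constructor
    · rintro ⟨h1, h2⟩
      exact ⟨⟨h1, ctr_GP_zero y h2⟩, h2⟩
    · rintro ⟨⟨h1, _⟩, h2⟩
      exact ⟨h1, h2⟩
  rw [e1]

theorem red_c (hN : Stab N f y) (hfy : f y = 1) (hy : y ≠ 0) (p j : ℕ) :
    pc (N ⊓ LinearMap.ker (ctrK y)) p (j + 1) = pc (Rd N f hy) p (j + 1) +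
      pc (N ⊓ LinearMap.ker (ctrK y)) p j := by
  unfold pc
  rw [finrank_map_ker (N ⊓ LinearMap.ker (ctrK y) ⊓ GP K ℓ p (j + 1)) (ddK f hy), add_comm]
  have e1 : N ⊓ LinearMap.ker (ctrK y) ⊓ GP K ℓ p (j + 1) ⊓ LinearMap.ker (ddK f hy) =
      Rd N f hy ⊓ GP K ℓ p (j + 1) := inf_right_comm _ _ _
  have e2 : (N ⊓ LinearMap.ker (ctrK y) ⊓ GP K ℓ p (j + 1)).map (ddK f hy) =
      N ⊓ LinearMap.ker (ctrK y) ⊓ GP K ℓ p j := by
    ext c
    simp only [Submodule.mem_map, Submodule.mem_inf, LinearMap.mem_ker]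
    constructor
    · rintro ⟨d, ⟨⟨hd1, hd2⟩, hd3⟩, rfl⟩
      refine ⟨⟨hN.hdd d hd1, ?_⟩, ddA_GP hy hd3⟩
      show ctr y (ddA f y d) = 0
      rw [ctr_ddA hy]
      have : ctr y d = 0 := hd2
      rw [this, ddA_zero hy]
    · rintro ⟨⟨hc1, hc2⟩, hc3⟩
      refine ⟨lin y • c, ⟨⟨hN.hlin c hc1, ?_⟩, lin_smul_GP y hc3⟩, ddA_lin_smul hfy c⟩
      show ctr y (lin y • c) = 0
      have : ctr y c = 0 := hc2
      rw [map_smul, this, smul_zero]
  rw [e1, e2]

theorem red_d (hy : y ≠ 0) (p : ℕ) :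
    pc (N ⊓ LinearMap.ker (ctrK y)) p 0 = pc (Rd N f hy) p 0 := by
  unfold pc
  have e1 : N ⊓ LinearMap.ker (ctrK y) ⊓ GP K ℓ p 0 = Rd N f hy ⊓ GP K ℓ p 0 := by
    ext c
    simp only [Rd, Submodule.mem_inf, LinearMap.mem_ker]
    constructor
    · rintro ⟨⟨h1, h2⟩, h3⟩
      exact ⟨⟨⟨h1, h2⟩, ddA_GP_zero hy h3⟩, h3⟩
    · rintro ⟨⟨⟨h1, h2⟩, _⟩, h3⟩
      exact ⟨⟨h1, h2⟩, h3⟩
  rw [e1]

theorem EF_succ_a (hN : Stab N f y) (hfy : f y = 1) (m : ℕ) :
    EF N (m + 1) = EF (N ⊓ LinearMap.ker (ctrK y)) (m + 1) -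
      EF (N ⊓ LinearMap.ker (ctrK y)) m := by
  unfold EF
  rw [Finset.Nat.sum_antidiagonal_succ, Finset.Nat.sum_antidiagonal_succ, ← red_b,
    add_sub_assoc, ← Finset.sum_sub_distrib]
  congr 1
  apply Finset.sum_congr rfl
  rintro ⟨p, j⟩ _
  simp only
  rw [red_a hN hfy, pow_succ]
  push_cast
  ring

theorem EF_succ_c (hN : Stab N f y) (hfy : f y = 1) (hy : y ≠ 0) (m : ℕ) :
    EF (N ⊓ LinearMap.ker (ctrK y)) (m + 1) = EF (Rd N f hy) (m + 1) +
      EF (N ⊓ LinearMap.ker (ctrK y)) m := by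
  unfold EF
  rw [Finset.Nat.sum_antidiagonal_succ', Finset.Nat.sum_antidiagonal_succ', ← red_d hy,
    add_right_comm, add_assoc, ← Finset.sum_add_distrib]
  congr 1
  apply Finset.sum_congr rfl
  rintro ⟨p, j⟩ _
  simp only
  rw [red_c hN hfy hy]
  push_cast
  ring

theorem EF_reduce (hN : Stab N f y) (hfy : f y = 1) (hy : y ≠ 0) (m : ℕ) :
    EF N m = EF (Rd N f hy) m := by
  rcases m with _ | m
  · unfold EF
    rw [Finset.Nat.antidiagonal_zero]
    simp only [Finset.sum_singleton, pow_zero, one_mul]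
    rw [red_b (y := y), red_d hy (f := f)]
  · rw [EF_succ_a hN hfy, EF_succ_c hN hfy hy]
    ring

end reduce

end Pool.Agent.H452R3
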