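import Pool.Agent.H452R3.Ops

set_option autoImplicit false

/-!
Contractions with constant one-forms and wedge products with constant vectors.
-/

namespace Pool.Agent.H452R3

open MvPolynomial

variable {K : Type*} [Field K] {ℓ : ℕ}

/-- The ambient module: polynomial multivector fields. -/
abbrev Amb (K : Type*) [Field K] (ℓ : ℕ) := Finset (Fin ℓ) → MvPolynomial (Fin ℓ) K

/-- The sign `(-1)^{#{k in J : k < i}}`. -/
def sg (K : Type*) [Field K] {ℓ : ℕ} (i : Fin ℓ) (J : Finset (Fin ℓ)) : K :=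
  (-1) ^ (J.filter (· < i)).card

theorem sg_mul_self (i : Fin ℓ) (J : Finset (Fin ℓ)) : sg K i J * sg K i J = 1 := by
  unfold sg
  rw [← pow_add, ← two_mul, pow_mul]
  simp

theorem sg_insert {i k : Fin ℓ} {J : Finset (Fin ℓ)} (hk : k ∉ J) :
    sg K i (insert k J) = if k < i then - sg K i J else sg K i J := by
  unfold sg
  rw [Finset.filter_insert]
  split_ifs with h
  · rw [Finset.card_insert_of_notMem (by simp [hk]), pow_succ]
    ring
  · rfl

/-- elementary contraction -/
noncomputable def ctr1 (i : Fin ℓ) : Amb K ℓ →ₗ[MvPolynomial (Fin ℓ) K] Amb K ℓ where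
  toFun c J := if i ∈ J then 0 else sg K i J • c (insert i J)
  map_add' c d := by
    funext J
    simp only [Pi.add_apply]
    split_ifs <;> simp
  map_smul' s c := by
    funext J
    simp only [Pi.smul_apply, RingHom.id_apply]
    split_ifs
    · simp
    · rw [smul_comm]

/-- elementary wedge -/
noncomputable def wdg1 (i : Fin ℓ) : Amb K ℓ →ₗ[MvPolynomial (Fin ℓ) K] Amb K ℓ where
  toFun c I := if i ∈ I then sg K i (I.erase i) • c (I.erase i) else 0
  map_add' c d := by
    funext J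
    simp only [Pi.add_apply]
    split_ifs <;> simp
  map_smul' s c := by
    funext J
    simp only [Pi.smul_apply, RingHom.id_apply]
    split_ifs
    · rw [smul_comm]
    · simp

theorem ctr1_apply (i : Fin ℓ) (c : Amb K ℓ) (J : Finset (Fin ℓ)) :
    ctr1 i c J = if i ∈ J then 0 else sg K i J • c (insert i J) := rfl

theorem wdg1_apply (i : Fin ℓ) (c : Amb K ℓ) (I : Finset (Fin ℓ)) :
    wdg1 i c I = if i ∈ I then sg K i (I.erase i) • c (I.erase i) else 0 := rfl

theorem ctr1_ctr1 (i j : Fin ℓ) (c : Amb K ℓ) : ctr1 i (ctr1 j c) = - ctr1 j (ctr1 i c) := by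
  funext J
  simp only [Pi.neg_apply, ctr1_apply]
  by_cases hij : i = j
  · subst hij
    simp
  by_cases hi : i ∈ J
  · simp [hi]
  by_cases hj : j ∈ J
  · simp [hj]
  rw [if_neg hi, if_neg hj, if_neg (by simp [hi, hj, Ne.symm hij]),
    if_neg (by simp [hi, hj, hij]), smul_smul, smul_smul, Finset.insert_comm,
    sg_insert hi, sg_insert hj]
  rcases lt_or_gt_of_ne hij with h | h
  · rw [if_pos h, if_neg (not_lt.2 h.le), ← neg_smul]
    congr 1
    ring
  · rw [if_pos h, if_neg (not_lt.2 h.le), ← neg_smul]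
    congr 1
    ring

theorem ctr1_wdg1_self (i : Fin ℓ) (c : Amb K ℓ) :
    ctr1 i (wdg1 i c) + wdg1 i (ctr1 i c) = c := by
  funext J
  simp only [Pi.add_apply, ctr1_apply, wdg1_apply]
  by_cases hi : i ∈ J
  · simp [hi, smul_smul, sg_mul_self]
  · simp [hi, smul_smul, sg_mul_self]

theorem ctr1_wdg1 {i j : Fin ℓ} (hij : i ≠ j) (c : Amb K ℓ) :
    ctr1 i (wdg1 j c) + wdg1 j (ctr1 i c) = 0 := by
  funext J
  simp only [Pi.add_apply, Pi.zero_apply, ctr1_apply, wdg1_apply]
  by_cases hi : i ∈ J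
  · simp [hi, hij]
  by_cases hj : j ∈ J
  · have h1 : j ∈ insert i J := Finset.mem_insert_of_mem hj
    have h2 : i ∉ J.erase j := fun h => hi (Finset.mem_of_mem_erase h)
    have h3 : (insert i J).erase j = insert i (J.erase j) := by
      ext k; simp only [Finset.mem_erase, Finset.mem_insert]
      constructor
      · rintro ⟨a, b | b⟩
        · exact Or.inl b
        · exact Or.inr ⟨a, b⟩
      · rintro (a | ⟨a, b⟩)
        · exact ⟨by rw [a]; exact hij, Or.inl a⟩
        · exact ⟨a, Or.inr b⟩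
    have h4 : J = insert j (J.erase j) := (Finset.insert_erase hj).symm
    rw [if_neg hi, if_pos h1, if_pos hj, if_neg h2, smul_smul, smul_smul, h3]
    have h5 : sg K i J = if j < i then - sg K i (J.erase j) else sg K i (J.erase j) := by
      conv_lhs => rw [h4]
      exact sg_insert (Finset.notMem_erase j J)
    have h6 : sg K j (insert i (J.erase j)) =
        if i < j then - sg K j (J.erase j) else sg K j (J.erase j) := sg_insert h2
    rw [h5, h6, ← add_smul]
    have : ((if j < i then -sg K i (J.erase j) else sg K i (J.erase j)) *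
        (if i < j then -sg K j (J.erase j) else sg K j (J.erase j)) +
        sg K j (J.erase j) * sg K i (J.erase j)) = 0 := by
      rcases lt_or_gt_of_ne hij with h | h
      · rw [if_neg (not_lt.2 h.le), if_pos h]; ring
      · rw [if_pos h, if_neg (not_lt.2 h.le)]; ring
    rw [this, zero_smul]
  · have h1 : j ∉ insert i J := by simp [hj, Ne.symm hij]
    simp [hj, Ne.symm hij]

/-- contraction with the constant one-form `a` -/
noncomputable def ctr (a : Fin ℓ → K) : Amb K ℓ →ₗ[MvPolynomial (Fin ℓ) K] Amb K ℓ :=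
  ∑ i, a i • ctr1 i

/-- wedge with the constant vector `v` -/
noncomputable def wdg (v : Fin ℓ → K) : Amb K ℓ →ₗ[MvPolynomial (Fin ℓ) K] Amb K ℓ :=
  ∑ i, v i • wdg1 i

theorem ctr_apply (a : Fin ℓ → K) (c : Amb K ℓ) : ctr a c = ∑ i, a i • ctr1 i c := by
  simp [ctr, LinearMap.sum_apply]

theorem wdg_apply (v : Fin ℓ → K) (c : Amb K ℓ) : wdg v c = ∑ i, v i • wdg1 i c := by
  simp [wdg, LinearMap.sum_apply]

theorem ctr_smulK (a : Fin ℓ → K) (t : K) (c : Amb K ℓ) : ctr a (t • c) = t • ctr a c := by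
  have h : ∀ d : Amb K ℓ, t • d = (C t : MvPolynomial (Fin ℓ) K) • d := by
    intro d; funext J; simp [MvPolynomial.smul_eq_C_mul]
  rw [h, map_smul, ← h]

theorem wdg_smulK (a : Fin ℓ → K) (t : K) (c : Amb K ℓ) : wdg a (t • c) = t • wdg a c := by
  have h : ∀ d : Amb K ℓ, t • d = (C t : MvPolynomial (Fin ℓ) K) • d := by
    intro d; funext J; simp [MvPolynomial.smul_eq_C_mul]
  rw [h, map_smul, ← h]

theorem ctr1_smulK (a : Fin ℓ) (t : K) (c : Amb K ℓ) : ctr1 a (t • c) = t • ctr1 a c := by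
  have h : ∀ d : Amb K ℓ, t • d = (C t : MvPolynomial (Fin ℓ) K) • d := by
    intro d; funext J; simp [MvPolynomial.smul_eq_C_mul]
  rw [h, map_smul, ← h]

theorem wdg1_smulK (a : Fin ℓ) (t : K) (c : Amb K ℓ) : wdg1 a (t • c) = t • wdg1 a c := by
  have h : ∀ d : Amb K ℓ, t • d = (C t : MvPolynomial (Fin ℓ) K) • d := by
    intro d; funext J; simp [MvPolynomial.smul_eq_C_mul]
  rw [h, map_smul, ← h]

theorem ctr_ctr (a b : Fin ℓ → K) (c : Amb K ℓ) : ctr a (ctr b c) = - ctr b (ctr a c) := by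
  have e : ∀ a b : Fin ℓ → K,
      ctr a (ctr b c) = ∑ i, ∑ j, (a i * b j) • ctr1 i (ctr1 j c) := by
    intro a b
    rw [ctr_apply]
    apply Finset.sum_congr rfl
    intro i _
    rw [ctr_apply, map_sum, Finset.smul_sum]
    apply Finset.sum_congr rfl
    intro j _
    rw [ctr1_smulK, smul_smul]
  rw [e a b, e b a, Finset.sum_comm, ← Finset.sum_neg_distrib]
  apply Finset.sum_congr rfl
  intro j _
  rw [← Finset.sum_neg_distrib]
  apply Finset.sum_congr rfl
  intro i _
  rw [ctr1_ctr1 i j, smul_neg, mul_comm]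

theorem ctr1_ctr1_self (i : Fin ℓ) (c : Amb K ℓ) : ctr1 i (ctr1 i c) = 0 := by
  funext J
  simp only [ctr1_apply, Pi.zero_apply]
  by_cases hi : i ∈ J
  · simp [hi]
  · simp [hi]

theorem ctr_ctr_self (a : Fin ℓ → K) (c : Amb K ℓ) : ctr a (ctr a c) = 0 := by
  have e : ctr a (ctr a c) =
      ∑ x : Fin ℓ × Fin ℓ, (a x.1 * a x.2) • ctr1 x.1 (ctr1 x.2 c) := by
    rw [Fintype.sum_prod_type, ctr_apply]
    apply Finset.sum_congr rfl
    intro i _
    rw [ctr_apply, map_sum, Finset.smul_sum]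
    apply Finset.sum_congr rfl
    intro j _
    rw [ctr1_smulK, smul_smul]
  rw [e]
  apply Finset.sum_involution (fun x _ => (x.2, x.1))
  · rintro ⟨i, j⟩ _
    simp only
    rw [ctr1_ctr1 j i, smul_neg, mul_comm (a j) (a i)]
    abel
  · rintro ⟨i, j⟩ _ hne heq
    simp only [Prod.mk.injEq] at heq
    obtain ⟨h1, _⟩ := heq
    subst h1
    apply hne
    simp only
    rw [ctr1_ctr1_self, smul_zero]
  · intro x _
    exact Finset.mem_univ _
  · rintro ⟨i, j⟩ _
    rfl

theorem ctr_wdg (a v : Fin ℓ → K) (c : Amb K ℓ) :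
    ctr a (wdg v c) + wdg v (ctr a c) = (∑ i, a i * v i) • c := by
  have e1 : ctr a (wdg v c) = ∑ i, ∑ j, (a i * v j) • ctr1 i (wdg1 j c) := by
    rw [ctr_apply]
    apply Finset.sum_congr rfl
    intro i _
    rw [wdg_apply, map_sum, Finset.smul_sum]
    apply Finset.sum_congr rfl
    intro j _
    rw [ctr1_smulK, smul_smul]
  have e2 : wdg v (ctr a c) = ∑ i, ∑ j, (a i * v j) • wdg1 j (ctr1 i c) := by
    rw [Finset.sum_comm, wdg_apply]
    apply Finset.sum_congr rfl
    intro j _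
    rw [ctr_apply, map_sum, Finset.smul_sum]
    apply Finset.sum_congr rfl
    intro i _
    rw [wdg1_smulK, smul_smul, mul_comm]
  rw [e1, e2, ← Finset.sum_add_distrib, Finset.sum_smul]
  apply Finset.sum_congr rfl
  intro i _
  rw [← Finset.sum_add_distrib, Finset.sum_eq_single i]
  · rw [← smul_add, ctr1_wdg1_self]
  · intro j _ hj
    rw [← smul_add, ctr1_wdg1 (Ne.symm hj), smul_zero]
  · simp

/-- coefficientwise application of `rho` -/
noncomputable def rhoA (P : (Fin ℓ → K) →ₗ[K] (Fin ℓ → K)) (c : Amb K ℓ) : Amb K ℓ :=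
  fun I => rho P (c I)

theorem ctr1_coef (φ : MvPolynomial (Fin ℓ) K →ₗ[K] MvPolynomial (Fin ℓ) K) (i : Fin ℓ)
    (c : Amb K ℓ) : ctr1 i (fun I => φ (c I)) = fun I => φ (ctr1 i c I) := by
  funext J
  simp only [ctr1_apply]
  split_ifs
  · simp
  · rw [map_smul]

theorem wdg1_coef (φ : MvPolynomial (Fin ℓ) K →ₗ[K] MvPolynomial (Fin ℓ) K) (i : Fin ℓ)
    (c : Amb K ℓ) : wdg1 i (fun I => φ (c I)) = fun I => φ (wdg1 i c I) := by
  funext J
  simp only [wdg1_apply]
  split_ifs
  · rw [map_smul]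
  · simp

theorem ctr_coef (φ : MvPolynomial (Fin ℓ) K →ₗ[K] MvPolynomial (Fin ℓ) K) (a : Fin ℓ → K)
    (c : Amb K ℓ) : ctr a (fun I => φ (c I)) = fun I => φ (ctr a c I) := by
  funext J
  simp only [ctr_apply, ctr1_coef, Finset.sum_apply, Pi.smul_apply, map_sum, map_smul]

theorem wdg_coef (φ : MvPolynomial (Fin ℓ) K →ₗ[K] MvPolynomial (Fin ℓ) K) (a : Fin ℓ → K)
    (c : Amb K ℓ) : wdg a (fun I => φ (c I)) = fun I => φ (wdg a c I) := by
  funext J
  simp only [wdg_apply, wdg1_coef, Finset.sum_apply, Pi.smul_apply, map_sum, map_smul]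

end Pool.Agent.H452R3
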