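import Pool.Agent.H452R3.Ext

set_option autoImplicit false

/-!
Logarithmic multivector fields, the submodules coming from closed subarrangements,
torsion freeness and the concentration theorem.
-/

namespace Pool.Agent.H452R3

open MvPolynomial
open scoped Classical

variable {K : Type*} [Field K] {ℓ : ℕ}

/-- logarithmic multivector fields of the arrangement `G` -/
noncomputable def DD (G : Finset (Fin ℓ → K)) :
    Submodule (MvPolynomial (Fin ℓ) K) (Amb K ℓ) where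
  carrier := {c | ∀ a ∈ G, ∀ J, lin a ∣ ctr a c J}
  add_mem' := by
    intro c d hc hd a ha J
    rw [map_add]
    exact dvd_add (hc a ha J) (hd a ha J)
  zero_mem' := by
    intro a _ J
    simp
  smul_mem' := by
    intro s c hc a ha J
    rw [map_smul]
    exact Dvd.dvd.mul_left (hc a ha J) s

theorem mem_DD {G : Finset (Fin ℓ → K)} {c : Amb K ℓ} :
    c ∈ DD G ↔ ∀ a ∈ G, ∀ J, lin a ∣ ctr a c J := Iff.rfl

theorem DD_mono {G H : Finset (Fin ℓ → K)} (h : G ⊆ H) : DD H ≤ DD (K := K) (ℓ := ℓ) G :=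
  fun _ hc a ha => hc a (h ha)

/-- product of the forms in `B` -/
noncomputable def pl (B : Finset (Fin ℓ → K)) : MvPolynomial (Fin ℓ) K := ∏ a ∈ B, lin a

theorem pl_isHomogeneous (B : Finset (Fin ℓ → K)) : (pl B).IsHomogeneous B.card := by
  have := IsHomogeneous.prod B (fun a => lin a) (fun _ => 1) (fun a _ => lin_isHomogeneous a)
  simpa [pl] using this

theorem pl_ne_zero {B : Finset (Fin ℓ → K)} (h : ∀ a ∈ B, a ≠ 0) : pl B ≠ 0 :=
  Finset.prod_ne_zero_iff.2 fun a ha => lin_ne_zero (h a ha)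

theorem rho_pl {P : (Fin ℓ → K) →ₗ[K] (Fin ℓ → K)} {B : Finset (Fin ℓ → K)}
    (h : ∀ a ∈ B, P a = a) : rho P (pl B) = pl B := by
  unfold pl
  rw [map_prod]
  exact Finset.prod_congr rfl fun a ha => by rw [rho_lin, h a ha]

/-- `G` is a closed subset of the arrangement `A` -/
def Cl (A G : Finset (Fin ℓ → K)) : Prop :=
  G ⊆ A ∧ ∀ a ∈ A, a ∈ Submodule.span K (G : Set (Fin ℓ → K)) → a ∈ G

noncomputable def M (A G : Finset (Fin ℓ → K)) :
    Submodule (MvPolynomial (Fin ℓ) K) (Amb K ℓ) :=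
  (DD G).map (LinearMap.lsmul (MvPolynomial (Fin ℓ) K) (Amb K ℓ) (pl (A \ G)))

theorem mem_M {A G : Finset (Fin ℓ → K)} {c : Amb K ℓ} :
    c ∈ M A G ↔ ∃ d ∈ DD G, pl (A \ G) • d = c := by
  simp [M, Submodule.mem_map]

noncomputable def U (A : Finset (Fin ℓ → K)) (𝒢 : Finset (Finset (Fin ℓ → K))) :
    Submodule (MvPolynomial (Fin ℓ) K) (Amb K ℓ) :=
  ⨆ G : {G // G ∈ 𝒢}, M A G.1

/-- closed proper subsets -/
noncomputable def PC (A : Finset (Fin ℓ → K)) : Finset (Finset (Fin ℓ → K)) :=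
  A.powerset.filter (fun G => Cl A G ∧ G ≠ A)

theorem mem_PC {A G : Finset (Fin ℓ → K)} : G ∈ PC A ↔ Cl A G ∧ G ≠ A := by
  simp only [PC, Finset.mem_filter, Finset.mem_powerset]
  exact ⟨fun h => h.2, fun h => ⟨h.1.1, h⟩⟩

noncomputable def W (A : Finset (Fin ℓ → K)) :
    Submodule (MvPolynomial (Fin ℓ) K) (Amb K ℓ) := U A (PC A)

theorem M_le_U {A G : Finset (Fin ℓ → K)} {𝒢 : Finset (Finset (Fin ℓ → K))} (h : G ∈ 𝒢) :
    M A G ≤ U A 𝒢 := le_iSup (fun G : {G // G ∈ 𝒢} => M A G.1) ⟨G, h⟩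

theorem U_le {A : Finset (Fin ℓ → K)} {𝒢 : Finset (Finset (Fin ℓ → K))}
    {N : Submodule (MvPolynomial (Fin ℓ) K) (Amb K ℓ)} (h : ∀ G ∈ 𝒢, M A G ≤ N) :
    U A 𝒢 ≤ N := iSup_le fun G => h G.1 G.2

theorem U_mono {A : Finset (Fin ℓ → K)} {𝒢 ℋ : Finset (Finset (Fin ℓ → K))} (h : 𝒢 ⊆ ℋ) :
    U A 𝒢 ≤ U A ℋ := U_le fun _ hG => M_le_U (h hG)

theorem U_stable {A : Finset (Fin ℓ → K)} {𝒢 : Finset (Finset (Fin ℓ → K))}
    (φ : Amb K ℓ → Amb K ℓ) (h0 : φ 0 = 0) (hadd : ∀ c d, φ (c + d) = φ c + φ d)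
    {B : Finset (Fin ℓ → K)} {ℋ : Finset (Finset (Fin ℓ → K))}
    (h : ∀ G ∈ 𝒢, ∀ c ∈ M A G, φ c ∈ U B ℋ) : ∀ c ∈ U A 𝒢, φ c ∈ U B ℋ := by
  intro c hc
  refine Submodule.iSup_induction (fun G : {G // G ∈ 𝒢} => M A G.1)
    (motive := fun c => φ c ∈ U B ℋ) hc ?_ ?_ ?_
  · intro G x hx
    exact h G.1 G.2 x hx
  · rw [h0]; exact Submodule.zero_mem _
  · intro x y hx hy
    rw [hadd]; exact Submodule.add_mem _ hx hy

/-! ### coefficientwise operators -/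

noncomputable def ddA (f : Module.Dual K (Fin ℓ → K)) (y : Fin ℓ → K) (c : Amb K ℓ) : Amb K ℓ :=
  fun I => dd f y (c I)

/-- `dd` as a linear map -/
noncomputable def ddL {f : Module.Dual K (Fin ℓ → K)} {y : Fin ℓ → K} (hy : y ≠ 0) :
    MvPolynomial (Fin ℓ) K →ₗ[K] MvPolynomial (Fin ℓ) K where
  toFun := dd f y
  map_add' := dd_add hy
  map_smul' := dd_smul hy

theorem ctr_ddA {f : Module.Dual K (Fin ℓ → K)} {y : Fin ℓ → K} (hy : y ≠ 0)
    (a : Fin ℓ → K) (c : Amb K ℓ) : ctr a (ddA f y c) = ddA f y (ctr a c) :=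
  ctr_coef (ddL (f := f) hy) a c

theorem wdg_ddA {f : Module.Dual K (Fin ℓ → K)} {y : Fin ℓ → K} (hy : y ≠ 0)
    (a : Fin ℓ → K) (c : Amb K ℓ) : wdg a (ddA f y c) = ddA f y (wdg a c) :=
  wdg_coef (ddL (f := f) hy) a c

theorem ctr_rhoA (P : (Fin ℓ → K) →ₗ[K] (Fin ℓ → K))
    (a : Fin ℓ → K) (c : Amb K ℓ) : ctr a (rhoA P c) = rhoA P (ctr a c) :=
  ctr_coef (rho P).toLinearMap a c

theorem wdg_rhoA (P : (Fin ℓ → K) →ₗ[K] (Fin ℓ → K))
    (a : Fin ℓ → K) (c : Amb K ℓ) : wdg a (rhoA P c) = rhoA P (wdg a c) :=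
  wdg_coef (rho P).toLinearMap a c

/-- coefficientwise homogeneous component -/
noncomputable def hcA (n : ℕ) (c : Amb K ℓ) : Amb K ℓ := fun I => homogeneousComponent n (c I)

theorem ctr_hcA (n : ℕ) (a : Fin ℓ → K) (c : Amb K ℓ) :
    ctr a (hcA n c) = hcA n (ctr a c) :=
  ctr_coef (homogeneousComponent n) a c

theorem wdg_hcA (n : ℕ) (a : Fin ℓ → K) (c : Amb K ℓ) :
    wdg a (hcA n c) = hcA n (wdg a c) :=
  wdg_coef (homogeneousComponent n) a c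

theorem rhoA_add (P : (Fin ℓ → K) →ₗ[K] (Fin ℓ → K)) (c d : Amb K ℓ) :
    rhoA P (c + d) = rhoA P c + rhoA P d := by
  funext I; simp [rhoA]

theorem rhoA_zero (P : (Fin ℓ → K) →ₗ[K] (Fin ℓ → K)) :
    rhoA P (0 : Amb K ℓ) = 0 := by
  funext I; simp [rhoA]

theorem rhoA_sub (P : (Fin ℓ → K) →ₗ[K] (Fin ℓ → K)) (c d : Amb K ℓ) :
    rhoA P (c - d) = rhoA P c - rhoA P d := by
  funext I; simp [rhoA]

theorem rhoA_smul (P : (Fin ℓ → K) →ₗ[K] (Fin ℓ → K)) (s : MvPolynomial (Fin ℓ) K)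
    (c : Amb K ℓ) : rhoA P (s • c) = rho P s • rhoA P c := by
  funext I; simp [rhoA]

theorem hcA_add (n : ℕ) (c d : Amb K ℓ) : hcA n (c + d) = hcA n c + hcA n d := by
  funext I; simp [hcA]

theorem hcA_sub (n : ℕ) (c d : Amb K ℓ) : hcA n (c - d) = hcA n c - hcA n d := by
  funext I; simp [hcA]

theorem hcA_zero (n : ℕ) : hcA n (0 : Amb K ℓ) = 0 := by
  funext I; simp [hcA]

theorem hcA_smul {q : MvPolynomial (Fin ℓ) K} {e : ℕ} (hq : q.IsHomogeneous e) (n : ℕ)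
    (c : Amb K ℓ) : hcA (n + e) (q • c) = q • hcA n c := by
  funext I
  simp only [hcA, Pi.smul_apply, smul_eq_mul]
  exact hc_mul hq _ _

theorem hcA_smul_lt {q : MvPolynomial (Fin ℓ) K} {e : ℕ} (hq : q.IsHomogeneous e) {n : ℕ}
    (hn : n < e) (c : Amb K ℓ) : hcA n (q • c) = 0 := by
  funext I
  simp only [hcA, Pi.smul_apply, smul_eq_mul, Pi.zero_apply]
  exact hc_mul_lt hq _ hn

theorem hcA_rhoA (n : ℕ) (P : (Fin ℓ → K) →ₗ[K] (Fin ℓ → K)) (c : Amb K ℓ) :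
    hcA n (rhoA P c) = rhoA P (hcA n c) := by
  funext I
  exact hc_rho P _ _

theorem ddA_add {f : Module.Dual K (Fin ℓ → K)} {y : Fin ℓ → K} (hy : y ≠ 0) (c d : Amb K ℓ) :
    ddA f y (c + d) = ddA f y c + ddA f y d := by
  funext I; exact dd_add hy _ _

theorem ddA_zero {f : Module.Dual K (Fin ℓ → K)} {y : Fin ℓ → K} (hy : y ≠ 0) :
    ddA f y (0 : Amb K ℓ) = 0 := by
  funext I; exact dd_zero hy

theorem ddA_smul_fixed {f : Module.Dual K (Fin ℓ → K)} {y : Fin ℓ → K} (hy : y ≠ 0)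
    {s : MvPolynomial (Fin ℓ) K} (hs : rho (shear f y) s = s) (c : Amb K ℓ) :
    ddA f y (s • c) = s • ddA f y c := by
  funext I; exact dd_mul_fixed hy hs _

theorem ddA_lin_smul {f : Module.Dual K (Fin ℓ → K)} {y : Fin ℓ → K} (hfy : f y = 1)
    (c : Amb K ℓ) : ddA f y (lin y • c) = c := by
  funext I; exact dd_lin_mul hfy _

theorem ddA_spec (f : Module.Dual K (Fin ℓ → K)) (y : Fin ℓ → K) (c : Amb K ℓ) :
    c = rhoA (shear f y) c + lin y • ddA f y c := by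
  funext I
  simp only [rhoA, ddA, Pi.add_apply, Pi.smul_apply, smul_eq_mul, ← dd_spec]
  ring

/-! ### stability of `DD` and `M` -/

theorem rhoA_DD {G : Finset (Fin ℓ → K)} {P : (Fin ℓ → K) →ₗ[K] (Fin ℓ → K)}
    (hP : ∀ a ∈ G, P a = a) {c : Amb K ℓ} (hc : c ∈ DD G) : rhoA P c ∈ DD G := by
  intro a ha J
  rw [ctr_rhoA]
  obtain ⟨k, hk⟩ := hc a ha J
  refine ⟨rho P k, ?_⟩
  show rho P (ctr a c J) = _
  rw [hk, map_mul, rho_lin, hP a ha]

theorem ddA_DD {G : Finset (Fin ℓ → K)} {f : Module.Dual K (Fin ℓ → K)} {y : Fin ℓ → K}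
    (hy : y ≠ 0) (hf : ∀ a ∈ G, f a = 0) {c : Amb K ℓ} (hc : c ∈ DD G) : ddA f y c ∈ DD G := by
  intro a ha J
  rw [ctr_ddA hy]
  obtain ⟨k, hk⟩ := hc a ha J
  refine ⟨dd f y k, ?_⟩
  show dd f y (ctr a c J) = _
  rw [hk, dd_mul_fixed hy]
  rw [rho_lin, shear_apply, hf a ha]
  simp

theorem hcA_DD {G : Finset (Fin ℓ → K)} (n : ℕ) {c : Amb K ℓ} (hc : c ∈ DD G) :
    hcA n c ∈ DD G := by
  intro a ha J
  rw [ctr_hcA]
  obtain ⟨k, hk⟩ := hc a ha J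
  show lin a ∣ homogeneousComponent n (ctr a c J)
  rw [hk]
  rcases n with _ | n
  · rw [hc_mul_lt (lin_isHomogeneous a) _ Nat.zero_lt_one]
    exact dvd_zero _
  · rw [hc_mul (lin_isHomogeneous a)]
    exact dvd_mul_right _ _

theorem rhoA_M {A G : Finset (Fin ℓ → K)} {P : (Fin ℓ → K) →ₗ[K] (Fin ℓ → K)}
    (hP : ∀ a ∈ A, P a = a) (hG : G ⊆ A) {c : Amb K ℓ} (hc : c ∈ M A G) : rhoA P c ∈ M A G := by
  obtain ⟨d, hd, rfl⟩ := mem_M.1 hc
  refine mem_M.2 ⟨rhoA P d, rhoA_DD (fun a ha => hP a (hG ha)) hd, ?_⟩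
  rw [rhoA_smul, rho_pl fun a ha => hP a (Finset.mem_sdiff.1 ha).1]

theorem hcA_M {A G : Finset (Fin ℓ → K)} (n : ℕ) {c : Amb K ℓ} (hc : c ∈ M A G) :
    hcA n c ∈ M A G := by
  obtain ⟨d, hd, rfl⟩ := mem_M.1 hc
  rcases lt_or_ge n (A \ G).card with h | h
  · rw [hcA_smul_lt (pl_isHomogeneous _) h]
    exact Submodule.zero_mem _
  · obtain ⟨m, rfl⟩ := Nat.exists_eq_add_of_le' h
    rw [hcA_smul (pl_isHomogeneous _)]
    exact mem_M.2 ⟨_, hcA_DD m hd, rfl⟩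

theorem ddA_M {A G : Finset (Fin ℓ → K)} {f : Module.Dual K (Fin ℓ → K)} {y : Fin ℓ → K}
    (hy : y ≠ 0) (hf : ∀ a ∈ A, f a = 0) (hG : G ⊆ A) {c : Amb K ℓ} (hc : c ∈ M A G) :
    ddA f y c ∈ M A G := by
  obtain ⟨d, hd, rfl⟩ := mem_M.1 hc
  refine mem_M.2 ⟨ddA f y d, ddA_DD hy (fun a ha => hf a (hG ha)) hd, ?_⟩
  rw [ddA_smul_fixed hy]
  apply rho_pl
  intro a ha
  rw [shear_apply, hf a (Finset.mem_sdiff.1 ha).1]
  simp

theorem rhoA_U {A : Finset (Fin ℓ → K)} {𝒢 : Finset (Finset (Fin ℓ → K))}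
    (h𝒢 : ∀ G ∈ 𝒢, G ⊆ A) {P : (Fin ℓ → K) →ₗ[K] (Fin ℓ → K)}
    (hP : ∀ a ∈ A, P a = a) {c : Amb K ℓ} (hc : c ∈ U A 𝒢) : rhoA P c ∈ U A 𝒢 :=
  U_stable (rhoA P) (rhoA_zero P) (rhoA_add P)
    (fun G hG _ hx => M_le_U hG (rhoA_M hP (h𝒢 G hG) hx)) c hc

theorem hcA_U {A : Finset (Fin ℓ → K)} {𝒢 : Finset (Finset (Fin ℓ → K))}
    (n : ℕ) {c : Amb K ℓ} (hc : c ∈ U A 𝒢) : hcA n c ∈ U A 𝒢 :=
  U_stable (hcA n) (hcA_zero n) (hcA_add n)
    (fun _ hG _ hx => M_le_U hG (hcA_M n hx)) c hc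

theorem ddA_U {A : Finset (Fin ℓ → K)} {𝒢 : Finset (Finset (Fin ℓ → K))}
    (h𝒢 : ∀ G ∈ 𝒢, G ⊆ A) {f : Module.Dual K (Fin ℓ → K)} {y : Fin ℓ → K}
    (hy : y ≠ 0) (hf : ∀ a ∈ A, f a = 0) {c : Amb K ℓ} (hc : c ∈ U A 𝒢) :
    ddA f y c ∈ U A 𝒢 :=
  U_stable (ddA f y) (ddA_zero hy) (ddA_add hy)
    (fun G hG _ hx => M_le_U hG (ddA_M hy hf (h𝒢 G hG) hx)) c hc

/-! ### torsion-freeness -/

theorem exists_functional {G : Set (Fin ℓ → K)} {y : Fin ℓ → K}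
    (hy : y ∉ Submodule.span K G) :
    ∃ f : Module.Dual K (Fin ℓ → K), f y = 1 ∧ ∀ a ∈ Submodule.span K G, f a = 0 := by
  obtain ⟨f, hf1, hf2⟩ := Submodule.exists_dual_map_eq_bot_of_notMem hy inferInstance
  refine ⟨(f y)⁻¹ • f, by simp [hf1], ?_⟩
  intro a ha
  have : f a ∈ Submodule.map f (Submodule.span K G) := Submodule.mem_map_of_mem ha
  rw [hf2] at this
  have h0 : f a = 0 := (Submodule.mem_bot K).1 this
  simp [h0]

theorem PC_sub {A G : Finset (Fin ℓ → K)} (h : G ∈ PC A) : G ⊆ A := (mem_PC.1 h).1.1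

/-- A linear form outside the span of `G` acts injectively modulo `W G`. -/
theorem torsion {G : Finset (Fin ℓ → K)} {y : Fin ℓ → K}
    (hy : y ∉ Submodule.span K (G : Set (Fin ℓ → K))) {c : Amb K ℓ}
    (hc : lin y • c ∈ W G) : c ∈ W G := by
  obtain ⟨f, hf1, hf2⟩ := exists_functional hy
  have hy0 : y ≠ 0 := by rintro rfl; exact hy (Submodule.zero_mem _)
  have := ddA_U (f := f) (y := y) (fun G' hG' => PC_sub hG') hy0
    (fun a ha => hf2 a (Submodule.subset_span ha)) hc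
  rwa [ddA_lin_smul hf1] at this

theorem torsion_pl {G : Finset (Fin ℓ → K)} (B : Finset (Fin ℓ → K))
    (hB : ∀ b ∈ B, b ∉ Submodule.span K (G : Set (Fin ℓ → K))) {c : Amb K ℓ}
    (hc : pl B • c ∈ W G) : c ∈ W G := by
  induction B using Finset.induction_on generalizing c with
  | empty => simpa [pl] using hc
  | insert b B hb ih =>
    have h1 : pl (insert b B) = lin b * pl B := by
      unfold pl; rw [Finset.prod_insert hb]
    rw [h1, mul_smul] at hc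
    exact ih (fun b' hb' => hB b' (Finset.mem_insert_of_mem hb'))
      (torsion (hB b (Finset.mem_insert_self _ _)) hc)

theorem Cl_inter {A G H : Finset (Fin ℓ → K)} (hG : Cl A G) (hH : Cl A H) : Cl A (G ∩ H) := by
  refine ⟨fun a ha => hG.1 (Finset.mem_inter.1 ha).1, fun a ha hs => ?_⟩
  rw [Finset.mem_inter]
  exact ⟨hG.2 a ha (Submodule.span_mono (by
      intro x hx; exact (Finset.mem_inter.1 hx).1) hs),
    hH.2 a ha (Submodule.span_mono (by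
      intro x hx; exact (Finset.mem_inter.1 hx).2) hs)⟩

theorem Cl_trans {A G H : Finset (Fin ℓ → K)} (hG : Cl A G) (hH : Cl G H) : Cl A H := by
  refine ⟨hH.1.trans hG.1, fun a ha hs => hH.2 a (hG.2 a ha (Submodule.span_mono ?_ hs)) hs⟩
  intro x hx; exact hH.1 hx

theorem Cl_of_subset {A G H : Finset (Fin ℓ → K)} (hGA : G ⊆ A) (hH : Cl A H) (h : H ⊆ G) :
    Cl G H := ⟨h, fun a ha hs => hH.2 a (hGA ha) hs⟩

/-- The key intersection lemma. -/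
theorem inter_lemma {A G : Finset (Fin ℓ → K)} (hA : ∀ a ∈ A, a ≠ 0) (hG : Cl A G)
    {𝒢 : Finset (Finset (Fin ℓ → K))} (h𝒢 : ∀ H ∈ 𝒢, Cl A H ∧ ¬ G ⊆ H) {h : Amb K ℓ}
    (hh : pl (A \ G) • h ∈ U A 𝒢) : h ∈ W G := by
  have hq : pl (A \ G) ≠ 0 := pl_ne_zero fun a ha => hA a (Finset.mem_sdiff.1 ha).1
  have hspan : ∀ b ∈ A \ G, b ∉ Submodule.span K (G : Set (Fin ℓ → K)) := by
    intro b hb hs
    exact (Finset.mem_sdiff.1 hb).2 (hG.2 b (Finset.mem_sdiff.1 hb).1 hs)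
  -- every element `c` of `U A 𝒢` satisfies `q • c = q • w` with `w ∈ W G`
  have key : ∀ c ∈ U A 𝒢, ∃ w ∈ W G, pl (A \ G) • c = pl (A \ G) • w := by
    intro c hc
    refine Submodule.iSup_induction (fun H : {H // H ∈ 𝒢} => M A H.1)
      (motive := fun c => ∃ w ∈ W G, pl (A \ G) • c = pl (A \ G) • w) hc ?_ ?_ ?_
    · rintro ⟨H, hH⟩ x hx
      obtain ⟨d, hd, rfl⟩ := mem_M.1 hx
      have hHA := (h𝒢 H hH).1
      have hPC : H ∩ G ∈ PC G := by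
        rw [mem_PC]
        refine ⟨Cl_of_subset hG.1 (Cl_inter hHA hG) Finset.inter_subset_right, ?_⟩
        intro he
        apply (h𝒢 H hH).2
        intro x hx
        rw [← he] at hx
        exact (Finset.mem_inter.1 hx).1
      refine ⟨pl (A \ H) • d, ?_, rfl⟩
      have hdis : pl (A \ H) = pl ((A \ H) \ G) * pl (G \ (H ∩ G)) := by
        have hu : A \ H = ((A \ H) \ G) ∪ (G \ (H ∩ G)) := by
          ext x
          simp only [Finset.mem_sdiff, Finset.mem_union, Finset.mem_inter]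
          constructor
          · rintro ⟨h1, h2⟩
            by_cases h3 : x ∈ G
            · exact Or.inr ⟨h3, fun h4 => h2 h4.1⟩
            · exact Or.inl ⟨⟨h1, h2⟩, h3⟩
          · rintro (⟨h1, _⟩ | ⟨h1, h2⟩)
            · exact h1
            · exact ⟨hG.1 h1, fun h3 => h2 ⟨h3, h1⟩⟩
        have hd2 : Disjoint ((A \ H) \ G) (G \ (H ∩ G)) := by
          rw [Finset.disjoint_left]
          intro x hx hx2
          exact (Finset.mem_sdiff.1 hx).2 (Finset.mem_sdiff.1 hx2).1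
        unfold pl
        rw [← Finset.prod_union hd2, ← hu]
      rw [hdis, mul_smul]
      apply Submodule.smul_mem
      exact M_le_U hPC (mem_M.2 ⟨d, DD_mono Finset.inter_subset_left hd, rfl⟩)
    · exact ⟨0, Submodule.zero_mem _, rfl⟩
    · rintro x y ⟨w, hw, hw'⟩ ⟨v, hv, hv'⟩
      exact ⟨w + v, Submodule.add_mem _ hw hv, by rw [smul_add, smul_add, hw', hv']⟩
  obtain ⟨w, hw, hw'⟩ := key _ hh
  have h1 : pl (A \ G) • h = w := by
    funext I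
    have := congrFun hw' I
    simp only [Pi.smul_apply, smul_eq_mul] at this ⊢
    exact mul_left_cancel₀ hq this
  rw [← h1] at hw
  exact torsion_pl _ hspan hw

theorem smul_W_le {A G : Finset (Fin ℓ → K)} (hG : Cl A G)
    {𝒢 : Finset (Finset (Fin ℓ → K))} (h𝒢 : ∀ H ∈ PC G, H ∈ 𝒢) {w : Amb K ℓ} (hw : w ∈ W G) :
    pl (A \ G) • w ∈ U A 𝒢 := by
  refine U_stable (fun w => pl (A \ G) • w) (smul_zero _) (fun c d => smul_add _ c d) ?_ w hw
  intro H hH c hc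
  obtain ⟨d, hd, rfl⟩ := mem_M.1 hc
  apply M_le_U (h𝒢 H hH)
  refine mem_M.2 ⟨d, hd, ?_⟩
  rw [smul_smul]
  congr 1
  have hHG : H ⊆ G := PC_sub hH
  have hu : A \ H = (A \ G) ∪ (G \ H) := by
    ext x
    simp only [Finset.mem_sdiff, Finset.mem_union]
    constructor
    · rintro ⟨h1, h2⟩
      by_cases h3 : x ∈ G
      · exact Or.inr ⟨h3, h2⟩
      · exact Or.inl ⟨h1, h3⟩
    · rintro (⟨h1, h2⟩ | ⟨h1, h2⟩)
      · exact ⟨h1, fun h3 => h2 (hHG h3)⟩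
      · exact ⟨hG.1 h1, h2⟩
  have hd2 : Disjoint (A \ G) (G \ H) := by
    rw [Finset.disjoint_left]
    intro x hx hx2
    exact (Finset.mem_sdiff.1 hx).2 (Finset.mem_sdiff.1 hx2).1
  unfold pl
  rw [hu, Finset.prod_union hd2]

theorem M_le_DD {A G : Finset (Fin ℓ → K)} : M A G ≤ DD (K := K) (ℓ := ℓ) A := by
  intro c hc
  obtain ⟨d, hd, rfl⟩ := mem_M.1 hc
  intro a ha J
  rw [map_smul]
  by_cases h : a ∈ G
  · exact Dvd.dvd.mul_left (hd a h J) _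
  · refine Dvd.dvd.mul_right ?_ _
    exact Finset.dvd_prod_of_mem (fun a => lin a) (Finset.mem_sdiff.2 ⟨ha, h⟩)

theorem W_le_DD (A : Finset (Fin ℓ → K)) : W A ≤ DD (K := K) (ℓ := ℓ) A := U_le fun _ _ => M_le_DD

end Pool.Agent.H452R3
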